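import Mathlib

/-!
# CB, degree 3, numbers of CORE3
-/

set_option autoImplicit false

namespace Pool.Agent.Helper18.CB

/-- `C * T ^ x ≤ T ^ y` for `C ≤ T` and `x + 1 ≤ y` -/
theorem mul_pow_le {C T x y : ℕ} (hT : 1 ≤ T) (hC : C ≤ T) (h : x + 1 ≤ y) :
    C * T ^ x ≤ T ^ y := by
  calc C * T ^ x ≤ T * T ^ x := Nat.mul_le_mul_right _ hC
    _ = T ^ (x + 1) := by ring
    _ ≤ T ^ y := Nat.pow_le_pow_right hT h

/-- the numbers of `core3` which do not contain `V` -/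
theorem num3_nat {n K c a A0 E : ℕ} (hn : 1 ≤ n) (hc : c = K + 2) (ha : a = 3 * n * (c + 1))
    (hA : A0 = a + 1) (hE : E = 8 * (a + c + 1) + A0 * K + A0 + 2 * a + 4 * n * c + 10)
    {idx C FC zs T : ℕ} (h1 : zs ≤ T) (h2 : 2 ≤ T) (h3 : FC ≤ T) (h4 : idx + 1 ≤ T)
    (h5 : 2 * idx + 1 ≤ T) (h6 : C ^ 2 ≤ T) :
    FC * T ^ (2 * E - c - 1) ≤ T ^ (2 * E - c) ∧
      (T ^ A0) ^ K * (idx + 1) ≤ T ^ (2 * E) ∧
      T ^ K * (idx * (T ^ (2 * E - c) + 1) + 1) ≤ T ^ (2 * E) ∧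
      C * T ^ (2 * n * (c + 1)) ≤ T ^ A0 ∧
      (C * T ^ (3 * n * E - a)) ^ 2 ≤ (T ^ (2 * E - c - 1)) ^ (3 * n) ∧
      C * T ^ (3 * n * E - a) ≤ (T ^ A0) ^ (3 * n * E + 1) := by
  have hT : 1 ≤ T := by omega
  have hCC : C ≤ C ^ 2 := by
    rcases Nat.eq_zero_or_pos C with h | h
    · rw [h]; norm_num
    · calc C = C * 1 := (mul_one C).symm
        _ ≤ C * C := Nat.mul_le_mul_left _ h
        _ = C ^ 2 := by ring
  have hC : C ≤ T := hCC.trans h6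
  have hcE : c + 1 ≤ E := by rw [hE]; omega
  have ha3 : 3 ≤ a := by
    rw [ha]
    calc 3 = 3 * 1 * 1 := rfl
      _ ≤ 3 * n * (c + 1) := Nat.mul_le_mul (Nat.mul_le_mul_left _ hn) (Nat.le_add_left _ _)
  have haE : a ≤ E := by rw [hE]; omega
  have hnE : E ≤ 3 * n * E := by
    calc E = 1 * E := (one_mul E).symm
      _ ≤ 3 * n * E := Nat.mul_le_mul_right _ (by omega)
  refine ⟨?_, ?_, ?_, ?_, ?_, ?_⟩
  · exact mul_pow_le hT h3 (by omega)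
  · rw [← pow_mul, mul_comm]
    refine mul_pow_le hT h4 ?_
    rw [hE]
    omega
  · have e1 : idx * (T ^ (2 * E - c) + 1) + 1 ≤ (2 * idx + 1) * T ^ (2 * E - c) := by
      have : 1 ≤ T ^ (2 * E - c) := Nat.one_le_pow _ _ hT
      calc idx * (T ^ (2 * E - c) + 1) + 1
          ≤ idx * (T ^ (2 * E - c) + T ^ (2 * E - c)) + T ^ (2 * E - c) :=
            Nat.add_le_add (Nat.mul_le_mul_left _ (Nat.add_le_add_left this _)) this
        _ = (2 * idx + 1) * T ^ (2 * E - c) := by ring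
    calc T ^ K * (idx * (T ^ (2 * E - c) + 1) + 1)
        ≤ T ^ K * ((2 * idx + 1) * T ^ (2 * E - c)) := Nat.mul_le_mul_left _ e1
      _ = (2 * idx + 1) * T ^ (K + (2 * E - c)) := by rw [pow_add]; ring
      _ ≤ T ^ (2 * E) := mul_pow_le hT h5 (by omega)
  · refine mul_pow_le hT hC ?_
    rw [hA, ha]
    have : 2 * n * (c + 1) ≤ 3 * n * (c + 1) :=
      Nat.mul_le_mul_right _ (Nat.mul_le_mul_right _ (by norm_num))
    omega
  · rw [mul_pow, ← pow_mul, ← pow_mul]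
    refine mul_pow_le hT h6 ?_
    obtain ⟨x, hx⟩ : ∃ x, 3 * n * E = a + x := ⟨3 * n * E - a, by omega⟩
    obtain ⟨y, hy⟩ : ∃ y, E = c + 1 + y := ⟨E - (c + 1), by omega⟩
    have e1 : 3 * n * E - a = x := by omega
    have e2 : 2 * E - c - 1 = E + y := by omega
    rw [e1, e2]
    have e3 : (E + y) * (3 * n) + a = 2 * (3 * n * E) := by
      have e4 : (E + y) * (3 * n) + a = (E + y) * (3 * n) + 3 * n * (c + 1) := by rw [← ha]
      rw [e4]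
      calc (E + y) * (3 * n) + 3 * n * (c + 1) = 3 * n * E + 3 * n * (c + 1 + y) := by ring
        _ = 3 * n * E + 3 * n * E := by rw [← hy]
        _ = 2 * (3 * n * E) := by ring
    omega
  · rw [← pow_mul]
    refine mul_pow_le hT hC ?_
    have : 3 * n * E + 1 ≤ A0 * (3 * n * E + 1) := by
      calc 3 * n * E + 1 = 1 * (3 * n * E + 1) := (one_mul _).symm
        _ ≤ A0 * (3 * n * E + 1) := Nat.mul_le_mul_right _ (by omega)
    omega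

/-- the numbers of `core3` which contain `V` -/
theorem num3_real {n c a A0 E : ℕ} (hn : 1 ≤ n) (hA : 4 ≤ A0)
    (hE : A0 + 2 * a + 4 * n * c + 10 ≤ E)
    {idx C k T : ℕ} (hidx : 1 ≤ idx) (h2 : 2 ≤ T) {cV : ℝ} (hcV : 0 < cV)
    (h7 : 16 * C * idx / cV ≤ T) (h8 : 16 * k * idx / cV ≤ T) (h9 : 2 * idx / cV ≤ T)
    {V : ℝ} (hV : cV * ((T ^ A0 : ℕ) : ℝ) ^ (-(1 / 4) : ℝ) ≤ V) :
    (C : ℝ) * (T : ℝ) ^ (4 * n * E) * ((T ^ A0 : ℕ) : ℝ) ^ (-(1 / 2) : ℝ) ≤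
        1 / 16 * ((T : ℝ) ^ (4 * n * E) / idx * V) ∧
      (k : ℝ) * (T : ℝ) ^ (3 * n * E + 2 * a + 4 * n * c + 2) ≤
        1 / 16 * ((T : ℝ) ^ (4 * n * E) / idx * V) ∧
      ((T ^ (2 * E) : ℕ) : ℝ) ^ ((2 * n : ℝ) - 1 / 2) ≤
        1 / 2 * ((T : ℝ) ^ (4 * n * E) / idx * V) := by
  have hT1 : (1 : ℝ) ≤ T := by exact_mod_cast (by omega : 1 ≤ T)
  have hT0 : (0 : ℝ) < T := by linarith
  have hi : (0 : ℝ) < idx := by exact_mod_cast hidx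
  have hZ1 : (1 : ℝ) ≤ ((T ^ A0 : ℕ) : ℝ) := by
    exact_mod_cast Nat.one_le_pow _ _ (by omega)
  have hZ0 : (0 : ℝ) < ((T ^ A0 : ℕ) : ℝ) := by linarith
  set Z : ℝ := ((T ^ A0 : ℕ) : ℝ) with hZ
  -- the fourth root of `Z`
  have hz : Z ^ (-(1 / 4) : ℝ) ≤ (T : ℝ)⁻¹ := by
    rw [hZ, Nat.cast_pow, ← Real.rpow_natCast, ← Real.rpow_mul hT0.le, ← Real.rpow_neg_one]
    apply Real.rpow_le_rpow_of_exponent_le hT1
    have : (4 : ℝ) ≤ A0 := by exact_mod_cast hA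
    linarith
  have hzp : 0 < Z ^ (-(1 / 4) : ℝ) := Real.rpow_pos_of_pos hZ0 _
  have hz2 : Z ^ (-(1 / 2) : ℝ) = Z ^ (-(1 / 4) : ℝ) * Z ^ (-(1 / 4) : ℝ) := by
    rw [← Real.rpow_add hZ0]
    norm_num
  have hzl : (T : ℝ) ^ (-(A0 : ℝ)) ≤ Z ^ (-(1 / 4) : ℝ) := by
    rw [hZ, Nat.cast_pow, ← Real.rpow_natCast, ← Real.rpow_mul hT0.le]
    apply Real.rpow_le_rpow_of_exponent_le hT1
    have : (0 : ℝ) ≤ A0 := Nat.cast_nonneg _
    linarith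
  have hP : 0 < (T : ℝ) ^ (4 * n * E) := by positivity
  -- `T ^ (x + 1) * T ^ A0 ≤ T ^ (4 n E)` gives the last two
  have key : ∀ (w : ℝ) (x : ℕ), w ≤ cV * T / idx → x + 1 + A0 ≤ 4 * n * E → 0 ≤ w →
      w * (T : ℝ) ^ x ≤ (T : ℝ) ^ (4 * n * E) / idx * V := by
    intro w x hw hx hw0
    have e1 : (T : ℝ) ^ (x + 1) ≤ (T : ℝ) ^ (4 * n * E) * (T : ℝ) ^ (-(A0 : ℝ)) := by
      rw [← Real.rpow_natCast, ← Real.rpow_natCast, ← Real.rpow_add hT0]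
      apply Real.rpow_le_rpow_of_exponent_le hT1
      have : ((x + 1 + A0 : ℕ) : ℝ) ≤ ((4 * n * E : ℕ) : ℝ) := by exact_mod_cast hx
      push_cast at this ⊢
      linarith
    calc w * (T : ℝ) ^ x ≤ (cV * T / idx) * (T : ℝ) ^ x :=
          mul_le_mul_of_nonneg_right hw (by positivity)
      _ = cV / idx * (T : ℝ) ^ (x + 1) := by rw [pow_succ]; ring
      _ ≤ cV / idx * ((T : ℝ) ^ (4 * n * E) * (T : ℝ) ^ (-(A0 : ℝ))) :=
          mul_le_mul_of_nonneg_left e1 (by positivity)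
      _ = (T : ℝ) ^ (4 * n * E) / idx * (cV * (T : ℝ) ^ (-(A0 : ℝ))) := by ring
      _ ≤ (T : ℝ) ^ (4 * n * E) / idx * V := by
          apply mul_le_mul_of_nonneg_left _ (by positivity)
          exact (mul_le_mul_of_nonneg_left hzl hcV.le).trans hV
  have hEn : E ≤ n * E := by
    calc E = 1 * E := (one_mul E).symm
      _ ≤ n * E := Nat.mul_le_mul_right _ hn
  have e4 : 4 * n * E = 3 * n * E + n * E := by ring
  refine ⟨?_, ?_, ?_⟩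
  · have e1 : 16 * C * idx * (T : ℝ)⁻¹ ≤ cV := by
      rw [div_le_iff₀ hcV] at h7
      rw [mul_inv_le_iff₀ hT0]
      linarith
    have e2 : 16 * C * idx * Z ^ (-(1 / 4) : ℝ) ≤ cV :=
      (mul_le_mul_of_nonneg_left hz (by positivity)).trans e1
    have e3 : 16 * C * idx * Z ^ (-(1 / 2) : ℝ) ≤ V := by
      rw [hz2]
      calc 16 * C * idx * (Z ^ (-(1 / 4) : ℝ) * Z ^ (-(1 / 4) : ℝ))
          = (16 * C * idx * Z ^ (-(1 / 4) : ℝ)) * Z ^ (-(1 / 4) : ℝ) := by ring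
        _ ≤ cV * Z ^ (-(1 / 4) : ℝ) := mul_le_mul_of_nonneg_right e2 hzp.le
        _ ≤ V := hV
    calc (C : ℝ) * (T : ℝ) ^ (4 * n * E) * Z ^ (-(1 / 2) : ℝ)
        = 1 / 16 * ((T : ℝ) ^ (4 * n * E) / idx * (16 * C * idx * Z ^ (-(1 / 2) : ℝ))) := by
          field_simp
      _ ≤ 1 / 16 * ((T : ℝ) ^ (4 * n * E) / idx * V) := by
          apply mul_le_mul_of_nonneg_left _ (by norm_num)
          exact mul_le_mul_of_nonneg_left e3 (by positivity)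
  · have := key (16 * k) (3 * n * E + 2 * a + 4 * n * c + 2) (by
      rw [div_le_iff₀ hcV] at h8
      rw [le_div_iff₀ hi]
      linarith) (by rw [e4]; omega) (by positivity)
    linarith
  · have := key 2 (4 * n * E - E) (by
      rw [div_le_iff₀ hcV] at h9
      rw [le_div_iff₀ hi]
      linarith) (by omega) (by norm_num)
    have e5 : ((T ^ (2 * E) : ℕ) : ℝ) ^ ((2 * n : ℝ) - 1 / 2) = (T : ℝ) ^ (4 * n * E - E) := by
      rw [Nat.cast_pow, ← Real.rpow_natCast, ← Real.rpow_mul hT0.le,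
        ← Real.rpow_natCast (T : ℝ) (4 * n * E - E), Nat.cast_sub (by omega)]
      congr 1
      push_cast
      ring
    rw [e5]
    linarith

/-- **NUM3.** The numbers of `core3`. -/
theorem num3 (n K c a A0 : ℕ) (hn : 1 ≤ n) (hc : c = K + 2) (ha : a = 3 * n * (c + 1))
    (hA : A0 = a + 1) : ∃ E : ℕ, 8 * (a + c + 1) ≤ E ∧ A0 * K + 1 ≤ 2 * E ∧ 1 ≤ E ∧
    c + 1 ≤ E ∧ a ≤ E ∧
    ∀ idx C FC zs k : ℕ, 1 ≤ idx → ∀ cV : ℝ, 0 < cV → ∃ T0 : ℕ, ∀ T : ℕ, T0 ≤ T →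
      zs ≤ T ∧ 2 ≤ T ∧ FC * T ^ (2 * E - c - 1) ≤ T ^ (2 * E - c) ∧
      (T ^ A0) ^ K * (idx + 1) ≤ T ^ (2 * E) ∧
      T ^ K * (idx * (T ^ (2 * E - c) + 1) + 1) ≤ T ^ (2 * E) ∧
      C * T ^ (2 * n * (c + 1)) ≤ T ^ A0 ∧
      (C * T ^ (3 * n * E - a)) ^ 2 ≤ (T ^ (2 * E - c - 1)) ^ (3 * n) ∧
      C * T ^ (3 * n * E - a) ≤ (T ^ A0) ^ (3 * n * E + 1) ∧
      ∀ V : ℝ, cV * ((T ^ A0 : ℕ) : ℝ) ^ (-(1 / 4) : ℝ) ≤ V →
        (C : ℝ) * (T : ℝ) ^ (4 * n * E) * ((T ^ A0 : ℕ) : ℝ) ^ (-(1 / 2) : ℝ) ≤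
            1 / 16 * ((T : ℝ) ^ (4 * n * E) / idx * V) ∧
          (k : ℝ) * (T : ℝ) ^ (3 * n * E + 2 * a + 4 * n * c + 2) ≤
            1 / 16 * ((T : ℝ) ^ (4 * n * E) / idx * V) ∧
          ((T ^ (2 * E) : ℕ) : ℝ) ^ ((2 * n : ℝ) - 1 / 2) ≤
            1 / 2 * ((T : ℝ) ^ (4 * n * E) / idx * V) := by
  have ha3 : 3 ≤ a := by
    rw [ha]
    calc 3 = 3 * 1 * 1 := rfl
      _ ≤ 3 * n * (c + 1) := Nat.mul_le_mul (Nat.mul_le_mul_left _ hn) (Nat.le_add_left _ _)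
  refine ⟨8 * (a + c + 1) + A0 * K + A0 + 2 * a + 4 * n * c + 10, by omega, by omega, by omega,
    by omega, by omega, ?_⟩
  intro idx C FC zs k hidx cV hcV
  refine ⟨zs + 2 + FC + 2 * idx + 1 + C ^ 2 + ⌈16 * C * idx / cV⌉₊ + ⌈16 * k * idx / cV⌉₊ +
    ⌈2 * idx / cV⌉₊, fun T hT => ?_⟩
  have h := num3_nat (idx := idx) (C := C) (FC := FC) (zs := zs) (T := T) hn hc ha hA rfl
    (by omega) (by omega) (by omega) (by omega) (by omega) (by omega)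
  refine ⟨by omega, by omega, h.1, h.2.1, h.2.2.1, h.2.2.2.1, h.2.2.2.2.1, h.2.2.2.2.2, ?_⟩
  intro V hV
  refine num3_real (c := c) (a := a) hn (by omega) (by omega) hidx (by omega) hcV ?_ ?_ ?_ hV
  · refine (Nat.le_ceil _).trans ?_
    exact_mod_cast (by omega : ⌈16 * (C : ℝ) * idx / cV⌉₊ ≤ T)
  · refine (Nat.le_ceil _).trans ?_
    exact_mod_cast (by omega : ⌈16 * (k : ℝ) * idx / cV⌉₊ ≤ T)
  · refine (Nat.le_ceil _).trans ?_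
    exact_mod_cast (by omega : ⌈2 * (idx : ℝ) / cV⌉₊ ≤ T)

end Pool.Agent.Helper18.CB
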