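import Pool.Agent.Helper69.CB.CountB
import Pool.Agent.Helper79.CB.Core
import Pool.Agent.Helper79.CB.Gcd
import Pool.Agent.Helper18.CB.Num3

/-!
# CB, degree 3, piece CORE3: counting lemmas
-/

set_option autoImplicit false

namespace Pool.Agent.Helper18.CB

open Finset Pool.Agent.Helper4.CB Pool.Agent.Helper23.CB Pool.Agent.Helper69.CB

theorem Rad_mono {N : ℕ} {G : Type} [AddCommGroup G] {e : (Fin N → ℤ) ≃+ G} {Λ : AddSubgroup G}
    {ρ ρ' : ℕ} (h : Rad e Λ ρ) (hρ : ρ ≤ ρ') : Rad e Λ ρ' := by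
  intro g
  obtain ⟨l, hl, h1⟩ := h g
  exact ⟨l, hl, fun i => (h1 i).trans (by exact_mod_cast hρ)⟩

open Classical in
/-- the points of the base coset in one of the lattices `Λ b`, `b ∈ A` -/
theorem cover_count {n : ℕ} {G : Type} [AddCommGroup G] {S : Sys (2 * n) G} (F : Fac3 n S)
    (K zs : ℕ) (hs : SiftB S K zs) {Γ0 : AddSubgroup G} (hΓ0 : Γ0.index ≠ 0) {T : ℕ}
    (hT : zs ≤ T) (hT2 : 3 * Γ0.index ≤ T ^ 2) (E : ℕ) (hE : K + 2 ≤ 2 * E)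
    (hΓΛ : ∀ (b : F.B) (T' : Finset S.Q), (∀ q ∈ F.pf b, q ∉ T') →
      Γ0 ⊔ (F.Λ b ⊓ T'.inf S.Γ) = ⊤)
    (A : Finset F.B) (hpf : ∀ b ∈ A, ∀ q ∈ F.pf b, T < S.nm q)
    (hrad : ∀ b ∈ A, Rad S.e (F.Λ b) (T ^ (2 * E - (K + 2)))) (τ x0 : G) :
    (((bx S.e τ (T ^ (2 * E))).filter (fun g => g - x0 ∈ Γ0 ∧ (∀ q ∈ S.le T, g ∉ S.E q) ∧
        ∃ b ∈ A, g ∈ F.Λ b)).card : ℝ) ≤
      5 / 4 * (((T ^ (2 * E) : ℕ) : ℝ) ^ (2 * n) / Γ0.index * S.V T) *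
        ∑ b ∈ A, (1 : ℝ) / F.bn b := by
  have hsub : (bx S.e τ (T ^ (2 * E))).filter (fun g => g - x0 ∈ Γ0 ∧ (∀ q ∈ S.le T, g ∉ S.E q) ∧
        ∃ b ∈ A, g ∈ F.Λ b) ⊆
      A.biUnion (fun b => (bx S.e τ (T ^ (2 * E))).filter (fun g => g - x0 ∈ Γ0 ∧
        (∀ q ∈ S.le T, g ∉ S.E q) ∧ g ∈ F.Λ b)) := by
    intro g hg
    rw [Finset.mem_filter] at hg
    obtain ⟨hg1, hg2, hg3, b, hb, hg4⟩ := hg
    rw [Finset.mem_biUnion]
    exact ⟨b, hb, Finset.mem_filter.2 ⟨hg1, hg2, hg3, hg4⟩⟩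
  have h1 := (Finset.card_le_card hsub).trans Finset.card_biUnion_le
  have h2 : (((bx S.e τ (T ^ (2 * E))).filter (fun g => g - x0 ∈ Γ0 ∧
        (∀ q ∈ S.le T, g ∉ S.E q) ∧ ∃ b ∈ A, g ∈ F.Λ b)).card : ℝ) ≤
      ∑ b ∈ A, (((bx S.e τ (T ^ (2 * E))).filter (fun g => g - x0 ∈ Γ0 ∧
        (∀ q ∈ S.le T, g ∉ S.E q) ∧ g ∈ F.Λ b)).card : ℝ) := by
    exact_mod_cast h1
  refine h2.trans ?_
  rw [Finset.mul_sum]
  exact Finset.sum_le_sum fun b hb => countA F K zs hs hΓ0 hT hT2 E hE b (hpf b hb) (hΓΛ b)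
    (hrad b hb) τ x0

open Classical in
/-- the sum of `1 / bn b` over the `b` above a set of places -/
theorem sum_P {n : ℕ} {G : Type} [AddCommGroup G] {S : Sys (2 * n) G} (F : Fac3 n S)
    (Qs : Finset S.Q) (R : F.B → Prop) :
    ∑ b ∈ Qs.biUnion (fun q => (F.P q).filter R), (1 : ℝ) / F.bn b ≤
      3 * ∑ q ∈ Qs, (1 : ℝ) / S.nm q := by
  have hdis : ∀ q ∈ Qs, ∀ q' ∈ Qs, q ≠ q' →
      Disjoint ((F.P q).filter R) ((F.P q').filter R) := by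
    intro q _ q' _ hne
    rw [Finset.disjoint_left]
    intro b hb hb'
    have h1 := F.P_pf q b (Finset.mem_filter.1 hb).1
    have h2 := F.P_pf q' b (Finset.mem_filter.1 hb').1
    rw [h1] at h2
    exact hne (Finset.singleton_injective h2)
  rw [Finset.sum_biUnion hdis, Finset.mul_sum]
  refine Finset.sum_le_sum fun q _ => ?_
  have h0 : (0 : ℝ) ≤ 1 / S.nm q := by positivity
  calc ∑ b ∈ (F.P q).filter R, (1 : ℝ) / F.bn b = ∑ _b ∈ (F.P q).filter R, (1 : ℝ) / S.nm q := by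
        refine Finset.sum_congr rfl fun b hb => ?_
        rw [F.P_bn q b (Finset.mem_filter.1 hb).1]
    _ = ((F.P q).filter R).card * ((1 : ℝ) / S.nm q) := by
        rw [Finset.sum_const, nsmul_eq_mul]
    _ ≤ 3 * ((1 : ℝ) / S.nm q) := by
        refine mul_le_mul_of_nonneg_right ?_ h0
        exact_mod_cast (Finset.card_filter_le _ _).trans (F.P_card q)

open Classical in
/-- **One factor.** The points of the base coset, sifted up to `z0 = T ^ A0`, which lie in `Λ b` for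
some `b ∈ P q`, `q` bad of norm greater than `z0`. -/
theorem bad_fac {n : ℕ} (hn : 1 ≤ n) {G : Type} [AddCommGroup G] {S : Sys (2 * n) G}
    (F : Fac3 n S)
    (K c a A0 E zs : ℕ) (hc : c = K + 2) (ha : a = 3 * n * (c + 1)) (hA : A0 = a + 1)
    (hE8 : 8 * (a + c + 1) ≤ E)
    (hs : SiftB S K zs) (bad : Set S.Q) (Adm : Set F.B) {ε : ℝ} {Z0 TW : ℕ}
    (hWin : F.d = 3 → ∀ T : ℕ, TW ≤ T → ∀ (τ : G) (A : Finset F.B),
      (∀ b ∈ A, (∃ q, b ∈ F.P q) ∧ F.bn b ≤ T ^ (3 * n * E + a) ∧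
        ¬ Rad S.e (F.Λ b) (T ^ (2 * E - c))) →
      ∑ b ∈ A, ((bx S.e τ (T ^ (2 * E))).filter (fun g => g ∈ F.Λ b)).card ≤
        T ^ (3 * n * E + 2 * a + 4 * n * c + 2))
    (hAdm : F.d = 3 → ∀ z : ℕ, Z0 ≤ z → ∀ A : Finset F.B,
      (∀ b ∈ A, b ∈ Adm ∧ F.bn b ≤ z ^ (3 * n * E + 1) ∧ ∀ q ∈ F.pf b, z < S.nm q) →
      ∑ b ∈ A, (1 : ℝ) / F.bn b ≤ ε)
    (hε : 0 ≤ ε)
    {Γ0 : AddSubgroup G} (hΓ0 : Γ0.index ≠ 0) {T C : ℕ}
    (hT : zs ≤ T) (hT2 : 3 * Γ0.index ≤ T ^ 2) (hTT : 2 ≤ T) (hTW : TW ≤ T) (hTZ : Z0 ≤ T)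
    (hFC : F.C * T ^ (2 * E - c - 1) ≤ T ^ (2 * E - c))
    (h6 : C * T ^ (2 * n * (c + 1)) ≤ T ^ A0)
    (h7 : (C * T ^ (3 * n * E - a)) ^ 2 ≤ (T ^ (2 * E - c - 1)) ^ (3 * n))
    (h8 : C * T ^ (3 * n * E - a) ≤ (T ^ A0) ^ (3 * n * E + 1))
    (hV : 0 ≤ S.V T)
    (hΓΛ : ∀ (b : F.B) (T' : Finset S.Q), (∀ q ∈ F.pf b, q ∉ T') →
      Γ0 ⊔ (F.Λ b ⊓ T'.inf S.Γ) = ⊤) (τ x0 : G)
    (hcof : ∀ g ∈ bx S.e τ (T ^ (2 * E)), g - x0 ∈ Γ0 → (∀ q, g ∉ S.Γ q) →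
      ∀ q ∈ bad, ∀ p ∈ F.P q, g ∈ F.Λ p → ∃ b : F.B, b ∈ Adm ∧
        (F.pf b).Nonempty ∧ g ∈ F.Λ b ∧ (∀ q' ∈ F.pf b, g ∈ S.E q') ∧
        F.bn b * S.nm q ≤ C * (T ^ (2 * E)) ^ (F.d * n)) :
    (((bx S.e τ (T ^ (2 * E))).filter (fun g => g - x0 ∈ Γ0 ∧
        (∀ q ∈ S.le (T ^ A0), g ∉ S.E q) ∧ (∀ q, g ∉ S.Γ q) ∧
        ∃ q ∈ bad, T ^ A0 < S.nm q ∧ ∃ b ∈ F.P q, g ∈ F.Λ b)).card : ℝ) ≤
      5 / 4 * (((T ^ (2 * E) : ℕ) : ℝ) ^ (2 * n) / Γ0.index * S.V T) *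
        (3 * ∑ q ∈ (S.le (T ^ (4 * n * E))).filter (fun q => q ∈ bad ∧ T ^ A0 < S.nm q),
          (1 : ℝ) / S.nm q + ε) + ((T ^ (3 * n * E + 2 * a + 4 * n * c + 2) : ℕ) : ℝ) := by
  have hT1 : 1 ≤ T := by omega
  have ha3 : 3 ≤ a := by
    rw [ha]
    calc 3 = 3 * 1 * 1 := rfl
      _ ≤ 3 * n * (c + 1) := Nat.mul_le_mul (Nat.mul_le_mul_left _ hn) (Nat.le_add_left _ _)
  have hEn : E ≤ n * E := by
    calc E = 1 * E := (one_mul E).symm
      _ ≤ n * E := Nat.mul_le_mul_right _ hn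
  have hTA : T ≤ T ^ A0 := Nat.le_self_pow (by omega) T
  have hE2 : K + 2 ≤ 2 * E := by omega
  set Qs := (S.le (T ^ (4 * n * E))).filter (fun q => q ∈ bad ∧ T ^ A0 < S.nm q) with hQs
  -- the regular lattices of bad places
  set A1 : Finset F.B := Qs.biUnion (fun q => (F.P q).filter
    (fun b => Rad S.e (F.Λ b) (T ^ (2 * E - c)))) with hA1
  -- the exceptional ones
  set A2 : Finset F.B := (if F.d = 3 then (S.le (T ^ (3 * n * E + a))).biUnion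
    (fun q => (F.P q).filter (fun b => ¬ Rad S.e (F.Λ b) (T ^ (2 * E - c)))) else ∅) with hA2
  -- the set of points
  set Bd := (bx S.e τ (T ^ (2 * E))).filter (fun g => g - x0 ∈ Γ0 ∧
        (∀ q ∈ S.le (T ^ A0), g ∉ S.E q) ∧ (∀ q, g ∉ S.Γ q) ∧
        ∃ q ∈ bad, T ^ A0 < S.nm q ∧ ∃ b ∈ F.P q, g ∈ F.Λ b) with hBd
  -- the cofactors
  have hcof' : ∀ g : G, ∃ b' : Option F.B, g ∈ Bd → g ∉ A1.biUnion (fun b =>
      (bx S.e τ (T ^ (2 * E))).filter (fun g => g ∈ F.Λ b)) → g ∉ A2.biUnion (fun b =>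
      (bx S.e τ (T ^ (2 * E))).filter (fun g => g ∈ F.Λ b)) → ∃ b, b' = some b ∧ F.d = 3 ∧
        b ∈ Adm ∧ g ∈ F.Λ b ∧ (∀ q ∈ F.pf b, T ^ A0 < S.nm q) ∧
        F.bn b ≤ C * T ^ (3 * n * E - a) := by
    intro g
    by_cases hg : g ∈ Bd
    swap
    · exact ⟨none, fun h => absurd h hg⟩
    by_cases hg1 : g ∈ A1.biUnion (fun b => (bx S.e τ (T ^ (2 * E))).filter (fun g => g ∈ F.Λ b))
    · exact ⟨none, fun _ h => absurd hg1 h⟩
    by_cases hg2 : g ∈ A2.biUnion (fun b => (bx S.e τ (T ^ (2 * E))).filter (fun g => g ∈ F.Λ b))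
    · exact ⟨none, fun _ _ h => absurd hg2 h⟩
    rw [hBd, Finset.mem_filter] at hg
    obtain ⟨hgb, hg0, hgE, hgΓ, q, hq, hqz, p, hp, hgp⟩ := hg
    obtain ⟨b, hbA, ⟨q1, hq1⟩, hgb', hbE, hbn⟩ := hcof g hgb hg0 hgΓ q hq p hp hgp
    have hbig : ∀ q ∈ F.pf b, T ^ A0 < S.nm q := by
      intro q' hq'
      by_contra hle
      exact hgE q' (S.mem_le.2 (not_lt.1 hle)) (hbE q' hq')
    have hbn1 : T ^ A0 < F.bn b := (hbig q1 hq1).trans_le (F.nm_le b q1 hq1)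
    have hnq : 0 < S.nm q := by
      have := S.two_le q
      omega
    have hpn : F.bn p = S.nm q := F.P_bn q p hp
    -- `p` is not in `A1`
    have hnot1 : S.nm q ≤ T ^ (4 * n * E) → ¬ Rad S.e (F.Λ p) (T ^ (2 * E - c)) := by
      intro hle hR
      apply hg1
      rw [Finset.mem_biUnion]
      refine ⟨p, ?_, Finset.mem_filter.2 ⟨hgb, hgp⟩⟩
      rw [hA1, Finset.mem_biUnion]
      exact ⟨q, Finset.mem_filter.2 ⟨S.mem_le.2 hle, hq, hqz⟩, Finset.mem_filter.2 ⟨hp, hR⟩⟩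
    have hC0 : 0 < C := by
      by_contra hC
      have hC' : C = 0 := by omega
      rw [hC', zero_mul] at hbn
      have : 0 < F.bn b * S.nm q := Nat.mul_pos (by omega) hnq
      omega
    by_cases hd : F.d = 3
    · -- degree 3
      have hlarge : T ^ (3 * n * E + a) < S.nm q := by
        by_contra hle
        have hle' := not_lt.1 hle
        have hle4 : S.nm q ≤ T ^ (4 * n * E) := hle'.trans (Nat.pow_le_pow_right hT1 (by
          have : 4 * n * E = 3 * n * E + n * E := by ring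
          omega))
        apply hg2
        rw [Finset.mem_biUnion]
        refine ⟨p, ?_, Finset.mem_filter.2 ⟨hgb, hgp⟩⟩
        rw [hA2, if_pos hd, Finset.mem_biUnion]
        exact ⟨q, S.mem_le.2 hle', Finset.mem_filter.2 ⟨hp, hnot1 hle4⟩⟩
      refine ⟨some b, fun _ _ _ => ⟨b, rfl, hd, hbA, hgb', hbig, ?_⟩⟩
      have h1 : F.bn b * T ^ (3 * n * E + a) ≤ C * T ^ (3 * n * E - a) * T ^ (3 * n * E + a) := by
        calc F.bn b * T ^ (3 * n * E + a) ≤ F.bn b * S.nm q := Nat.mul_le_mul_left _ hlarge.le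
          _ ≤ C * (T ^ (2 * E)) ^ (F.d * n) := hbn
          _ = C * T ^ (3 * n * E - a) * T ^ (3 * n * E + a) := by
            rw [hd, mul_assoc, ← pow_add, ← pow_mul]
            congr 2
            have : 2 * E * (3 * n) = 3 * n * E + 3 * n * E := by ring
            have h3 : a ≤ 3 * n * E := by
              have : 3 * n * E = 3 * (n * E) := by ring
              omega
            omega
      exact Nat.le_of_mul_le_mul_right h1 (Nat.pow_pos hT1)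
    · -- degree at most 2: impossible
      exfalso
      have hd2 : F.d ≤ 2 := by
        have := F.le_three
        omega
      have hdn : F.d * n * (c + 1) ≤ 2 * n * (c + 1) :=
        Nat.mul_le_mul_right _ (Nat.mul_le_mul_right _ hd2)
      have h1 : (C * T ^ (F.d * n * (c + 1))) * S.nm q ≤
          (C * T ^ (F.d * n * (c + 1))) * T ^ (F.d * n * (2 * E - c - 1)) := by
        calc (C * T ^ (F.d * n * (c + 1))) * S.nm q
            ≤ (C * T ^ (2 * n * (c + 1))) * S.nm q :=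
              Nat.mul_le_mul_right _ (Nat.mul_le_mul_left _ (Nat.pow_le_pow_right hT1 hdn))
          _ ≤ T ^ A0 * S.nm q := Nat.mul_le_mul_right _ h6
          _ ≤ F.bn b * S.nm q := Nat.mul_le_mul_right _ hbn1.le
          _ ≤ C * (T ^ (2 * E)) ^ (F.d * n) := hbn
          _ = (C * T ^ (F.d * n * (c + 1))) * T ^ (F.d * n * (2 * E - c - 1)) := by
            rw [mul_assoc, ← pow_add, ← pow_mul]
            congr 2
            rw [← Nat.mul_add]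
            have : c + 1 + (2 * E - c - 1) = 2 * E := by omega
            rw [this, mul_comm]
      have h2 : S.nm q ≤ T ^ (F.d * n * (2 * E - c - 1)) :=
        Nat.le_of_mul_le_mul_left h1 (Nat.mul_pos hC0 (Nat.pow_pos hT1))
      have h3 : Rad S.e (F.Λ p) (T ^ (2 * E - c)) := by
        refine Rad_mono (F.rad p (T ^ (2 * E - c - 1)) ?_) hFC
        have hm : max (F.d - 1) 1 = 1 := by
          apply max_eq_right
          omega
        rw [hm, pow_one, hpn, ← pow_mul, mul_comm (2 * E - c - 1)]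
        exact h2
      refine hnot1 (h2.trans (Nat.pow_le_pow_right hT1 ?_)) h3
      calc F.d * n * (2 * E - c - 1) ≤ 2 * n * (2 * E) :=
            Nat.mul_le_mul (Nat.mul_le_mul_right _ hd2) (by omega)
        _ = 4 * n * E := by ring
  choose cf hcf using hcof'
  set A3 : Finset F.B := Bd.biUnion (fun g => (cf g).toFinset.filter (fun b => F.d = 3 ∧
    b ∈ Adm ∧ (∀ q ∈ F.pf b, T ^ A0 < S.nm q) ∧ F.bn b ≤ C * T ^ (3 * n * E - a))) with hA3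
  -- the covering
  have hcover : Bd ⊆ ((bx S.e τ (T ^ (2 * E))).filter (fun g => g - x0 ∈ Γ0 ∧
        (∀ q ∈ S.le T, g ∉ S.E q) ∧ ∃ b ∈ A1, g ∈ F.Λ b)) ∪
      ((bx S.e τ (T ^ (2 * E))).filter (fun g => g - x0 ∈ Γ0 ∧
        (∀ q ∈ S.le T, g ∉ S.E q) ∧ ∃ b ∈ A3, g ∈ F.Λ b) ∪
      A2.biUnion (fun b => (bx S.e τ (T ^ (2 * E))).filter (fun g => g ∈ F.Λ b))) := by
    intro g hg
    have hg' := hg
    rw [hBd, Finset.mem_filter] at hg'
    obtain ⟨hgb, hg0, hgE, hgΓ, -⟩ := hg'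
    have hgT : ∀ q ∈ S.le T, g ∉ S.E q := fun q hq =>
      hgE q (S.mem_le.2 ((S.mem_le.1 hq).trans hTA))
    rw [Finset.mem_union, Finset.mem_union]
    by_cases hg1 : g ∈ A1.biUnion (fun b => (bx S.e τ (T ^ (2 * E))).filter (fun g => g ∈ F.Λ b))
    · left
      rw [Finset.mem_biUnion] at hg1
      obtain ⟨b, hb, hgb1⟩ := hg1
      exact Finset.mem_filter.2 ⟨hgb, hg0, hgT, b, hb, (Finset.mem_filter.1 hgb1).2⟩
    by_cases hg2 : g ∈ A2.biUnion (fun b => (bx S.e τ (T ^ (2 * E))).filter (fun g => g ∈ F.Λ b))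
    · exact Or.inr (Or.inr hg2)
    right
    left
    obtain ⟨b, hb1, hb2, hb3, hb4, hb5, hb6⟩ := hcf g hg hg1 hg2
    refine Finset.mem_filter.2 ⟨hgb, hg0, hgT, b, ?_, hb4⟩
    rw [hA3, Finset.mem_biUnion]
    refine ⟨g, hg, Finset.mem_filter.2 ⟨?_, hb2, hb3, hb5, hb6⟩⟩
    rw [hb1]
    simp
  have hcard := (Finset.card_le_card hcover).trans ((Finset.card_union_le _ _).trans
    (Nat.add_le_add_left (Finset.card_union_le _ _) _))
  -- direct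
  have h1 := cover_count F K zs hs hΓ0 hT hT2 E hE2 hΓΛ A1 (fun b hb q hq => by
    rw [hA1, Finset.mem_biUnion] at hb
    obtain ⟨q', hq', hb'⟩ := hb
    rw [F.P_pf q' b (Finset.mem_filter.1 hb').1, Finset.mem_singleton] at hq
    rw [hq]
    exact hTA.trans_lt (Finset.mem_filter.1 hq').2.2) (fun b hb => by
    rw [hA1, Finset.mem_biUnion] at hb
    obtain ⟨q', hq', hb'⟩ := hb
    rw [← hc]
    exact (Finset.mem_filter.1 hb').2) τ x0
  -- cofactors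
  have hA3mem : ∀ b ∈ A3, F.d = 3 ∧ b ∈ Adm ∧ (∀ q ∈ F.pf b, T ^ A0 < S.nm q) ∧
      F.bn b ≤ C * T ^ (3 * n * E - a) := by
    intro b hb
    rw [hA3, Finset.mem_biUnion] at hb
    obtain ⟨g, _, hb'⟩ := hb
    exact (Finset.mem_filter.1 hb').2
  have h3 := cover_count F K zs hs hΓ0 hT hT2 E hE2 hΓΛ A3
    (fun b hb q hq => hTA.trans_lt ((hA3mem b hb).2.2.1 q hq)) (fun b hb => by
      obtain ⟨hd, _, _, hbn⟩ := hA3mem b hb
      rw [← hc]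
      refine Rad_mono (F.rad b (T ^ (2 * E - c - 1)) ?_) hFC
      rw [hd]
      exact (Nat.pow_le_pow_left hbn _).trans h7) τ x0
  have h3s : ∑ b ∈ A3, (1 : ℝ) / F.bn b ≤ ε := by
    by_cases hd : F.d = 3
    · exact hAdm hd (T ^ A0) (hTZ.trans hTA) A3 (fun b hb =>
        ⟨(hA3mem b hb).2.1, (hA3mem b hb).2.2.2.trans h8, (hA3mem b hb).2.2.1⟩)
    · have : A3 = ∅ := by
        rw [Finset.eq_empty_iff_forall_notMem]
        intro b hb
        exact hd (hA3mem b hb).1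
      rw [this, Finset.sum_empty]
      exact hε
  -- exceptional
  have h2 : (A2.biUnion (fun b => (bx S.e τ (T ^ (2 * E))).filter
      (fun g => g ∈ F.Λ b))).card ≤ T ^ (3 * n * E + 2 * a + 4 * n * c + 2) := by
    refine Finset.card_biUnion_le.trans ?_
    by_cases hd : F.d = 3
    · refine hWin hd T hTW τ A2 ?_
      intro b hb
      rw [hA2, if_pos hd, Finset.mem_biUnion] at hb
      obtain ⟨q, hq, hb'⟩ := hb
      obtain ⟨hbP, hbR⟩ := Finset.mem_filter.1 hb'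
      refine ⟨⟨q, hbP⟩, ?_, hbR⟩
      rw [F.P_bn q b hbP]
      exact S.mem_le.1 hq
    · rw [hA2, if_neg hd, Finset.sum_empty]
      exact Nat.zero_le _
  have hW : 0 ≤ 5 / 4 * (((T ^ (2 * E) : ℕ) : ℝ) ^ (2 * n) / Γ0.index * S.V T) := by positivity
  have h1' := h1.trans (mul_le_mul_of_nonneg_left (sum_P F Qs
    (fun b => Rad S.e (F.Λ b) (T ^ (2 * E - c)))) hW)
  have h3' := h3.trans (mul_le_mul_of_nonneg_left h3s hW)
  have hcardr : (Bd.card : ℝ) ≤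
      (((bx S.e τ (T ^ (2 * E))).filter (fun g => g - x0 ∈ Γ0 ∧
        (∀ q ∈ S.le T, g ∉ S.E q) ∧ ∃ b ∈ A1, g ∈ F.Λ b)).card : ℝ) +
      ((((bx S.e τ (T ^ (2 * E))).filter (fun g => g - x0 ∈ Γ0 ∧
        (∀ q ∈ S.le T, g ∉ S.E q) ∧ ∃ b ∈ A3, g ∈ F.Λ b)).card : ℝ) +
      ((A2.biUnion (fun b => (bx S.e τ (T ^ (2 * E))).filter (fun g => g ∈ F.Λ b))).card : ℝ)) := by
    exact_mod_cast hcard
  have h2r : ((A2.biUnion (fun b => (bx S.e τ (T ^ (2 * E))).filter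
      (fun g => g ∈ F.Λ b))).card : ℝ) ≤
      ((T ^ (3 * n * E + 2 * a + 4 * n * c + 2) : ℕ) : ℝ) := by exact_mod_cast h2
  linarith

end Pool.Agent.Helper18.CB
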